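import Pool.Agent.R490.Po

set_option autoImplicit false

/-!
# Primes `p` with almost prime `p + 2 c`: counts and the law of the next ones, uniformly in `c`
-/

namespace Pool.Agent.Results.MP_3aaefc_nt.LawAfterPrimes

open Finset Filter

/-- Neither `n` nor `n + 2 c` has a prime factor `≤ y`. -/
def Rough (c y n : ℕ) : Prop := ∀ p : ℕ, p.Prime → p ≤ y → ¬ p ∣ n ∧ ¬ p ∣ n + 2 * c

/-- `1` if `p ∣ 2 c`, otherwise `2`: the number of the residues `n` modulo `p` with `p ∣ n (n + 2 c)`. -/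
def w (c p : ℕ) : ℕ := if p ∣ 2 * c then 1 else 2

/-- The product of `1 - w(p) / p` over the primes `p ≤ y`, the density of the `n` with `Rough c y n`. -/
noncomputable def V (c y : ℕ) : ℝ := ∏ p ∈ (Finset.range (y + 1)).filter Nat.Prime, (1 - (w c p : ℝ) / p)

/-- The product of `(1 - w(p) / p) / (1 - 1 / p)` over the primes `p ≤ y`. -/
noncomputable def W (c y : ℕ) : ℝ :=
  ∏ p ∈ (Finset.range (y + 1)).filter Nat.Prime, (1 - (w c p : ℝ) / p) / (1 - 1 / (p : ℝ))

open Classical in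
/-- The PRIMES `n` in `(u, u + Y]` (larger than `y`) for which `n + 2 c` has no prime factor `≤ y`. -/
noncomputable def P (c y u Y : ℕ) : Finset ℕ := (Ioc u (u + Y)).filter (fun n => n.Prime ∧ Rough c y n)

open Classical in
/-- The number of the `m` in `(n, n + T]` with `Rough c y m`. -/
noncomputable def Next (c y T n : ℕ) : ℕ := ((Ioc n (n + T)).filter (fun m => Rough c y m)).card

open Classical in
/-- **The law after primes for constant `P`, uniformly in the constant.** Let `A`, `0 < δ'`, `0 < θ`, `0 < δ ≤ 1`,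
`x0` and `0 < ε ≤ 1`. There is `r0` such that for every `r ≥ r0` and all large `N`, with `y = N ^ (1 / r)`: for ALL
constants `c` with `N ^ δ' < 2 c ≤ N ^ A` and all windows `(u, u + Y]` with `u + Y ≤ X`, `δ X ≤ Y`, `X ≥ N ^ θ`:
the primes `n` in the window for which `n + 2 c` has no prime factor `≤ y` number `Y W / log X`, up to the factor
`1 + ε`, and for exactly the expected proportions of them, `e ^ (- T V) (T V) ^ j / j!`, there are `j` integers
`m` in `(n, n + T]` for which neither `m` nor `m + 2 c` has a prime factor `≤ y`, as for a Poisson process,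
`T V ≤ x0`. -/
theorem result (A : ℕ) (δ' θ δ : ℝ) (hδ' : 0 < δ') (hθ : 0 < θ) (hδ : 0 < δ) (hδ1 : δ ≤ 1)
    (x0 ε : ℝ) (hε : 0 < ε) (hε1 : ε ≤ 1) :
    ∃ r0 : ℕ, 2 ≤ r0 ∧ ∀ r : ℕ, r0 ≤ r → ∀ᶠ N : ℕ in atTop, ∀ y : ℕ, y = ⌊(N : ℝ) ^ (1 / (r : ℝ))⌋₊ →
      ∀ c : ℕ, (N : ℝ) ^ δ' < 2 * c → 2 * c ≤ N ^ A →
      0 < W c y ∧ ∀ X : ℕ, (N : ℝ) ^ θ ≤ X → ∀ u Y : ℕ, δ * X ≤ Y → u + Y ≤ X →
      |((P c y u Y).card : ℝ) * Real.log X - Y * W c y| ≤ ε * (Y * W c y) ∧
      ∀ T : ℕ, T * V c y ≤ x0 → ∀ J : Finset ℕ,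
      |(((P c y u Y).filter (fun n => Next c y T n ∈ J)).card : ℝ) - (P c y u Y).card *
          ∑ j ∈ J, Real.exp (-(T * V c y)) * (T * V c y) ^ j / j.factorial| ≤
        ε * (P c y u Y).card :=
  Pool.Agent.R490.Po.prime A δ' θ δ hδ' hθ hδ hδ1 x0 ε hε hε1

end Pool.Agent.Results.MP_3aaefc_nt.LawAfterPrimes
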