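import Pool.Agent.R490.Po

set_option autoImplicit false

/-!
# Narrow progressions in arbitrary sets of primes `p` with `p + 2 c` prime or rough
-/

namespace Pool.Agent.Results.MP_3aaefc_nt.NarrowProgressions

open Finset Filter

/-- The `n` such that all prime factors of `n` and of `n + 2 c` exceed `n ^ (1 / r)`. For `r ≥ 2` this set
contains all large primes `n` for which `n + 2 c` is a prime. -/
def RoughPairs (c r : ℕ) : Set ℕ :=
  {n | ∀ p : ℕ, p.Prime → (p ∣ n ∨ p ∣ n + 2 * c) → (n : ℝ) ^ (1 / (r : ℝ)) < (p : ℝ)}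

/-- `m` is a term of an `l`-term arithmetic progression with difference at most `D`, all terms of which
are elements of `S` in `(X, Z]`. -/
def InProgression (S : Set ℕ) (l : ℕ) (D : ℝ) (X Z m : ℕ) : Prop :=
  ∃ s d : ℕ, 1 ≤ d ∧ (d : ℝ) ≤ D ∧ (∀ i < l, s + i * d ∈ S ∧ X < s + i * d ∧ s + i * d ≤ Z) ∧
    ∃ i < l, m = s + i * d

open Classical in
/-- **Narrow progressions for constant `P`.** Let `c ≥ 1`, `θ, ε > 0` and `r, l ≥ 2`. There is an exponent `B` such
that for all large `X`, all `X ^ θ ≤ Y ≤ X` and EVERY set `S` of integers `n` such that all prime factors of `n`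
and of `n + 2 c` exceed `n ^ (1 / r)`, for instance every set of large primes `p_n` for which `p_n + 2 c` is
prime: all but at most `ε Y / (log X) ^ 2` of the elements of `S` in `(X, X + Y]` are terms of `l`-term arithmetic
progressions with difference at most `(log X) ^ B` all terms of which are in `S` and in `(X, X + Y]`. -/
theorem result (c : ℕ) (hc : 1 ≤ c)
    (θ : ℝ) (hθ : 0 < θ) (r : ℕ) (hr : 2 ≤ r) (l : ℕ) (hl : 2 ≤ l) (ε : ℝ) (hε : 0 < ε) :
    ∃ B : ℕ, ∀ᶠ X : ℕ in atTop, ∀ Y : ℕ, (X : ℝ) ^ θ ≤ Y → Y ≤ X →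
      ∀ S : Set ℕ, S ⊆ RoughPairs c r →
        (((Ioc X (X + Y)).filter (fun m : ℕ =>
          m ∈ S ∧ ¬ InProgression S l (Real.log X ^ B) X (X + Y) m)).card : ℝ) ≤
        ε * (Y / Real.log X ^ 2) := by
  obtain ⟨B, hB⟩ := Pool.Agent.R490.Po.nar c hc θ hθ r hr l hl ε hε
  refine ⟨B, ?_⟩
  filter_upwards [hB] with X hX Y hXY hYX S hS
  exact hX Y hXY hYX S (fun m hm => hS hm)

end Pool.Agent.Results.MP_3aaefc_nt.NarrowProgressions
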