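import Pool.Agent.R490.Po

set_option autoImplicit false

/-!
# Regular points of arbitrary sets of primes `p` with `p + 2 c` prime or rough, uniformly in `c`
-/

namespace Pool.Agent.Results.MP_3aaefc_nt.RegularPoints

open Finset Filter

/-- Neither `n` nor `n + 2 c` has a prime factor `≤ y`. -/
def Rough (c y n : ℕ) : Prop := ∀ p : ℕ, p.Prime → p ≤ y → ¬ p ∣ n ∧ ¬ p ∣ n + 2 * c

/-- `1` if `p ∣ 2 c`, otherwise `2`: the number of the residues `n` modulo `p` with `p ∣ n (n + 2 c)`. -/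
def w (c p : ℕ) : ℕ := if p ∣ 2 * c then 1 else 2

/-- The product of `1 - w(p) / p` over the primes `p ≤ y`, the density of the `n` with `Rough c y n`. -/
noncomputable def V (c y : ℕ) : ℝ := ∏ p ∈ (Finset.range (y + 1)).filter Nat.Prime, (1 - (w c p : ℝ) / p)

open Classical in
/-- The number of elements of `S` in `(a, b]`. -/
noncomputable def count (S : Set ℕ) (a b : ℕ) : ℕ := ((Finset.Ioc a b).filter (fun m => m ∈ S)).card

/-- All intervals `(m - s, m + t]` with `s, t ≤ Y` of length at least `L / κ` contain between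
`κ (s + t) / L` and `(s + t) / (κ L)` elements of `S`. -/
def RightOrder (S : Set ℕ) (L κ : ℝ) (Y m : ℕ) : Prop :=
  ∀ s t : ℕ, s ≤ Y → t ≤ Y → L ≤ κ * (s + t) →
    κ * (s + t) / L ≤ count S (m - s) (m + t) ∧ (count S (m - s) (m + t) : ℝ) ≤ (s + t) / (κ * L)

/-- Up to `δ`, `S` has a constant density on both sides of `m` up to the distance `2 ^ j`. -/
def ConstantDensity (S : Set ℕ) (L κ δ : ℝ) (m j : ℕ) : Prop :=
  ∃ lam : ℝ, κ ≤ lam ∧ lam ≤ 1 / κ ∧ ∀ s t : ℕ, s ≤ 2 ^ j → t ≤ 2 ^ j →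
    |(count S (m - s) (m + t) : ℝ) - lam * (s + t) / L| ≤ δ * 2 ^ j / L

open Classical in
/-- The number of the scales `L ≤ 2 ^ j ≤ Y` without this property. -/
noncomputable def badScales (S : Set ℕ) (L κ δ : ℝ) (Y m : ℕ) : ℕ :=
  ((Finset.range (Nat.log 2 Y + 1)).filter (fun j => L ≤ (2 : ℝ) ^ j ∧ ¬ ConstantDensity S L κ δ m j)).card

/-- The elements of `S` that are not regular points of `S`. -/
def Irregular (S : Set ℕ) (L κ δ : ℝ) (M Y : ℕ) : Set ℕ :=
  {m | m ∈ S ∧ ¬ (RightOrder S L κ Y m ∧ badScales S L κ δ Y m ≤ M)}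

open Classical in
/-- **Regular points for constant `P`, uniformly in the constant.** Let `A` and `θ > 0`. There is `r0` such that for
`r ≥ r0` and `ε > 0` there is `κ > 0`, and for `δ > 0` there is `M`, such that for all large `X`, with
`y = X ^ (1 / r)`, ALL constants `1 ≤ c`, `2 c ≤ X ^ A`, all intervals `(u, u + Y]` with `X ^ θ ≤ Y ≤ X`, `Y ≤ u`,
and EVERY set `S` of integers `n` for which neither `n` nor `n + 2 c` has a prime factor `≤ y`, for instance the
set of all primes `n > y` for which `n + 2 c` is a prime: all but at most `ε Y V` of the elements of `S` in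
`(u, u + Y]` are regular points of `S`: all intervals around them of length at least `1 / (κ V)` and at most `Y`
to each side contain the right order of elements of `S`, and `S` has a constant density up to `δ` around them at
all but `M` dyadic scales. -/
theorem result (A : ℕ) (θ : ℝ) (hθ : 0 < θ) :
    ∃ r0 : ℕ, 2 ≤ r0 ∧ ∀ r : ℕ, r0 ≤ r → ∀ ε : ℝ, 0 < ε → ∃ κ : ℝ, 0 < κ ∧
      ∀ δ : ℝ, 0 < δ → ∃ M : ℕ, ∀ᶠ X : ℕ in atTop, ∀ y : ℕ, y = ⌊(X : ℝ) ^ (1 / (r : ℝ))⌋₊ →
      ∀ c : ℕ, 1 ≤ c → 2 * c ≤ X ^ A →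
      ∀ u Y : ℕ, (X : ℝ) ^ θ ≤ Y → Y ≤ X → Y ≤ u → ∀ S : Set ℕ, (∀ n ∈ S, Rough c y n) →
        (count (Irregular S (1 / V c y) κ δ M Y) u (u + Y) : ℝ) ≤ ε * (Y * V c y) :=
  Pool.Agent.R490.Po.reg A θ hθ

end Pool.Agent.Results.MP_3aaefc_nt.RegularPoints
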