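import Pool.Agent.R490.Po

set_option autoImplicit false

/-!
# Numbers `n` for which `n` and `n + 2 c` are rough: the law of the spacings, uniformly in `c`
-/

namespace Pool.Agent.Results.MP_3aaefc_nt.SpacingLaw

open Finset Filter

/-- Neither `n` nor `n + 2 c` has a prime factor `≤ y`. -/
def Rough (c y n : ℕ) : Prop := ∀ p : ℕ, p.Prime → p ≤ y → ¬ p ∣ n ∧ ¬ p ∣ n + 2 * c

/-- `1` if `p ∣ 2 c`, otherwise `2`: the number of the residues `n` modulo `p` with `p ∣ n (n + 2 c)`. -/
def w (c p : ℕ) : ℕ := if p ∣ 2 * c then 1 else 2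

/-- The product of `1 - w(p) / p` over the primes `p ≤ y`, the density of the `n` with `Rough c y n`. -/
noncomputable def V (c y : ℕ) : ℝ := ∏ p ∈ (Finset.range (y + 1)).filter Nat.Prime, (1 - (w c p : ℝ) / p)

open Classical in
/-- The number of the `n` in `(u, u + Y]` with `Rough c y n` for which fewer than `k` of the `T` integers before
`n` have this property, that is, for which the distance from `n` to the `k`-th preceding such integer is larger
than `T`. -/
noncomputable def D (c y k T u Y : ℕ) : ℕ :=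
  ((Ioc u (u + Y)).filter (fun n => Rough c y n ∧ ((Ico (n - T) n).filter (fun m => Rough c y m)).card < k)).card

open Classical in
/-- **The law of the spacings for constant `P`, uniformly in the constant.** Let `A`, `δ' > 0` and `θ > 0`. For all
`k0`, `x0` and `ε > 0` there is `r0` such that for every `r ≥ r0` and all large `X`, with `y = X ^ (1 / r)`: for
ALL constants `c` with `X ^ δ' < 2 c ≤ X ^ A` and ALL intervals `(u, u + Y]` with `Y ≥ X ^ θ`, among the `n` for
which neither `n` nor `n + 2 c` has a prime factor `≤ y`, the distances to the `k`-th preceding one have, in units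
`1 / V` and up to `ε`, the distribution which belongs to a Poisson process. -/
theorem result (A : ℕ) (δ' θ : ℝ) (hδ' : 0 < δ') (hθ : 0 < θ) (k0 : ℕ) (x0 ε : ℝ) (hε : 0 < ε) :
    ∃ r0 : ℕ, ∀ r : ℕ, r0 ≤ r → ∀ᶠ X : ℕ in atTop, ∀ y : ℕ, y = ⌊(X : ℝ) ^ (1 / (r : ℝ))⌋₊ →
      ∀ c : ℕ, (X : ℝ) ^ δ' < 2 * c → 2 * c ≤ X ^ A →
      ∀ u Y : ℕ, (X : ℝ) ^ θ ≤ Y → ∀ k T : ℕ, (k ≤ k0 ∨ T * V c y ≤ x0) →
        |(D c y k T u Y : ℝ) - Y * V c y *
            ∑ j ∈ range k, Real.exp (-(T * V c y)) * (T * V c y) ^ j / j.factorial| ≤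
          ε * (Y * V c y) :=
  Pool.Agent.R490.Po.gap A δ' θ hδ' hθ k0 x0 ε hε

end Pool.Agent.Results.MP_3aaefc_nt.SpacingLaw
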